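import Mathlib

namespace Pool.Agent.Results.MP_c39918_co.Yes

open Pointwise

/-- Compact convex set with nonempty interior. -/
def IsBody {d : ℕ} (K : Set (Fin d → ℝ)) : Prop :=
  IsCompact K ∧ Convex ℝ K ∧ (interior K).Nonempty

/-- The real Ehrhart function. -/
noncomputable def L {d : ℕ} (K : Set (Fin d → ℝ)) (s : ℝ) : ℕ∞ :=
  Set.encard {z : Fin d → ℤ | (fun i => (z i : ℝ)) ∈ s • K}

/-- Translate by an integer vector. -/
def shift {d : ℕ} (K : Set (Fin d → ℝ)) (w : Fin d → ℤ) : Set (Fin d → ℝ) :=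
  (fun x i => x i + (w i : ℝ)) '' K

theorem sub {d : ℕ} (K H : Set (Fin d → ℝ)) (hK : IsBody K) (hH : IsBody H)
    (h : ∀ s : ℝ, 0 < s → ∀ w : Fin d → ℤ, L (shift K w) s = L (shift H w) s) : K ⊆ H := by
  have hcl : IsClosed H := hH.1.isClosed
  suffices hs : interior K ⊆ H by
    calc K ⊆ closure K := subset_closure
      _ = closure (interior K) := (hK.2.1.closure_interior_eq_closure_of_nonempty_interior hK.2.2).symm
      _ ⊆ H := closure_minimal hs hcl
  intro u hu
  by_contra huH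
  obtain ⟨e, he, hb⟩ := Metric.isOpen_iff.1 (isOpen_interior.inter hcl.isOpen_compl) u ⟨hu, huH⟩
  obtain ⟨R, hR⟩ := (hK.1.union hH.1).isBounded.exists_norm_le
  obtain ⟨M, hM⟩ := exists_nat_gt (2 * R)
  obtain ⟨q, hq⟩ := exists_nat_one_div_lt he
  have hq0 : (0 : ℝ) < (q : ℝ) + 1 := by positivity
  obtain ⟨a, ha⟩ : ∃ a : ℝ, a = M + 1 / ((q : ℝ) + 1) := ⟨_, rfl⟩
  have ha0 : 0 < a := by rw [ha]; positivity
  have haR : 2 * R < a := by
    have : 0 < 1 / ((q : ℝ) + 1) := by positivity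
    linarith
  obtain ⟨z, hz⟩ : ∃ z : Fin d → ℤ, z = fun i => ⌊u i * (q + 1)⌋ := ⟨_, rfl⟩
  obtain ⟨p, hp⟩ : ∃ p : Fin d → ℝ, p = fun i => (z i : ℝ) / (q + 1) := ⟨_, rfl⟩
  have hpu : p ∈ Metric.ball u e := by
    rw [Metric.mem_ball, dist_pi_lt_iff he]
    intro i
    rw [Real.dist_eq, hp, hz]
    have h1 := Int.floor_le (u i * (q + 1))
    have h2 := Int.lt_floor_add_one (u i * (q + 1))
    have h3 : (⌊u i * (q + 1)⌋ : ℝ) / (q + 1) - u i = (⌊u i * (q + 1)⌋ - u i * (q + 1)) / (q + 1) := by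
      field_simp
    beta_reduce
    rw [h3, abs_div, abs_of_pos hq0]
    refine lt_of_le_of_lt (div_le_div_of_nonneg_right ?_ hq0.le) hq
    rw [abs_le]
    constructor <;> linarith
  have mem : ∀ (A : Set (Fin d → ℝ)) (y : Fin d → ℤ),
      (fun i => (y i : ℝ)) ∈ a⁻¹ • shift A (fun i => M * z i) ↔
        (fun i => p i + a * ((y i - z i : ℤ) : ℝ)) ∈ A := by
    intro A y
    rw [Set.mem_smul_set_iff_inv_smul_mem₀ (inv_pos.2 ha0).ne', inv_inv]
    have key : ∀ i, p i + a * ((y i - z i : ℤ) : ℝ) + (((M : ℤ) * z i : ℤ) : ℝ) = a * y i := by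
      intro i
      rw [hp, ha]
      push_cast
      ring
    constructor
    · rintro ⟨x, hx, e⟩
      convert hx using 1
      funext i
      have := congrFun e i
      simp only [Pi.smul_apply, smul_eq_mul] at this
      linarith [key i]
    · intro hx
      exact ⟨_, hx, funext fun i => key i⟩
  have h0 := h a⁻¹ (inv_pos.2 ha0) (fun i => M * z i)
  have h1 : L (shift H (fun i => M * z i)) a⁻¹ = 0 := by
    unfold L
    rw [Set.encard_eq_zero, Set.eq_empty_iff_forall_notMem]
    intro y hy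
    have hy' := (mem H y).1 hy
    have n1 := hR _ (Or.inr hy')
    have n2 := hR _ (Or.inl (interior_subset (hb hpu).1))
    have : y = z := by
      funext i
      have m1 := abs_le.1 ((norm_le_pi_norm _ i).trans n1)
      have m2 := abs_le.1 ((norm_le_pi_norm _ i).trans n2)
      have b1 : ((y i - z i : ℤ) : ℝ) < 1 := by
        by_contra hc
        nlinarith [not_lt.1 hc]
      have b2 : (-1 : ℝ) < ((y i - z i : ℤ) : ℝ) := by
        by_contra hc
        nlinarith [not_lt.1 hc]
      have c1 : y i - z i < 1 := by exact_mod_cast b1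
      have c2 : -1 < y i - z i := by exact_mod_cast b2
      omega
    subst this
    exact (hb hpu).2 (by simpa using hy')
  rw [h1] at h0
  unfold L at h0
  rw [Set.encard_eq_zero, Set.eq_empty_iff_forall_notMem] at h0
  exact h0 z ((mem K z).2 (by simpa using interior_subset (hb hpu).1))

theorem result (d : ℕ) (K H : Set (Fin d → ℝ)) (hK : IsBody K) (hH : IsBody H)
    (h : ∀ s : ℝ, 0 < s → ∀ w : Fin d → ℤ, L (shift K w) s = L (shift H w) s) : K = H :=
  Set.Subset.antisymm (sub K H hK hH h) (sub H K hH hK fun s hs w => (h s hs w).symm)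

end Pool.Agent.Results.MP_c39918_co.Yes
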